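import Mathlib

namespace Pool.Agent.Lib.MP_c2536d_co

open Finset

lemma sum_cos_powerset {ι : Type*} [DecidableEq ι] (a : ι → ℝ) (s : Finset ι) : ∀ θ : ℝ,
    ∑ T ∈ s.powerset, Real.cos (θ + ∑ j ∈ T, a j)
      = 2 ^ s.card * Real.cos (θ + (∑ j ∈ s, a j) / 2) * ∏ j ∈ s, Real.cos (a j / 2) := by
  induction s using Finset.induction_on with
  | empty => intro θ; simp
  | insert b s hb ih =>
    intro θ
    rw [Finset.sum_powerset_insert hb, ih θ]
    have h1 : ∑ t ∈ s.powerset, Real.cos (θ + ∑ j ∈ insert b t, a j)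
        = ∑ t ∈ s.powerset, Real.cos ((θ + a b) + ∑ j ∈ t, a j) := by
      apply Finset.sum_congr rfl
      intro t ht
      rw [Finset.mem_powerset] at ht
      rw [Finset.sum_insert (fun h => hb (ht h))]
      congr 1; ring
    rw [h1, ih (θ + a b), Finset.card_insert_of_notMem hb, Finset.sum_insert hb,
      Finset.prod_insert hb, pow_succ]
    have h2 : Real.cos (θ + (∑ j ∈ s, a j) / 2) + Real.cos (θ + a b + (∑ j ∈ s, a j) / 2)
        = 2 * Real.cos (θ + (a b + ∑ j ∈ s, a j) / 2) * Real.cos (a b / 2) := by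
      rw [add_comm (Real.cos _), Real.cos_add_cos]
      congr 2
      · congr 1; ring
      · congr 1; ring
    linear_combination (2 ^ s.card * ∏ j ∈ s, Real.cos (a j / 2)) * h2

/-- product of cosines is bounded below -/
lemma prod_cos_ge {ι : Type*} [DecidableEq ι] (d : ι → ℝ) (s : Finset ι)
    (hd : ∀ j ∈ s, |d j| ≤ 3 / 2) (a : ℝ) (ha : |a| ≤ 1 / 4) :
    -(Real.sqrt 2 / 2) ≤ Real.cos (Real.pi * a) * ∏ j ∈ s, Real.cos (Real.pi * d j / 2) := by
  have hpi := Real.pi_pos
  have hs2 : 0 < Real.sqrt 2 := by positivity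
  have hcos1 : 0 ≤ Real.cos (Real.pi * a) := by
    rw [abs_le] at ha
    apply Real.cos_nonneg_of_neg_pi_div_two_le_of_le <;> nlinarith
  by_cases hall : ∀ j ∈ s, |d j| ≤ 1
  · have h1 : 0 ≤ ∏ j ∈ s, Real.cos (Real.pi * d j / 2) := by
      apply Finset.prod_nonneg
      intro j hj
      have := hall j hj
      rw [abs_le] at this
      apply Real.cos_nonneg_of_neg_pi_div_two_le_of_le <;> nlinarith
    have := mul_nonneg hcos1 h1
    linarith
  · push Not at hall
    obtain ⟨j, hj, hj1⟩ := hall
    have hj2 := hd j hj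
    have h1 : |Real.cos (Real.pi * d j / 2)| ≤ Real.sqrt 2 / 2 := by
      have e1 : Real.cos (Real.pi * d j / 2) = Real.cos (Real.pi * |d j| / 2) := by
        rcases abs_cases (d j) with ⟨h, _⟩ | ⟨h, _⟩
        · rw [h]
        · rw [h, ← Real.cos_neg]; congr 1; ring
      rw [e1]
      have h2 : Real.cos (Real.pi * |d j| / 2) ≤ 0 := by
        apply Real.cos_nonpos_of_pi_div_two_le_of_le
        · nlinarith
        · nlinarith
      rw [abs_of_nonpos h2, ← Real.cos_pi_div_four, ← Real.cos_pi_sub]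
      apply Real.cos_le_cos_of_nonneg_of_le_pi
      · positivity
      · nlinarith
      · nlinarith
    have h3 : |Real.cos (Real.pi * a) * ∏ j ∈ s, Real.cos (Real.pi * d j / 2)|
        ≤ Real.sqrt 2 / 2 := by
      rw [abs_mul, ← Finset.mul_prod_erase s _ hj, abs_mul]
      have h4 : |∏ x ∈ s.erase j, Real.cos (Real.pi * d x / 2)| ≤ 1 := by
        rw [Finset.abs_prod]
        apply Finset.prod_le_one
        · intro i _; exact abs_nonneg _
        · intro i _; exact Real.abs_cos_le_one _
      have h5 : |Real.cos (Real.pi * a)| ≤ 1 := Real.abs_cos_le_one _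
      calc |Real.cos (Real.pi * a)| * (|Real.cos (Real.pi * d j / 2)| *
            |∏ x ∈ s.erase j, Real.cos (Real.pi * d x / 2)|)
          ≤ 1 * ((Real.sqrt 2 / 2) * 1) := by gcongr
        _ = _ := by ring
    exact (abs_le.1 h3).1

section abs

variable {Q ι : Type*} [Fintype Q] [Fintype ι] [DecidableEq ι]

/-- The data of the abstract theorem. -/
structure Data (mix : Finset ι → Q → Q → Q) (u : ι → Q → ℝ) (f : Q → ℝ) (c ε : ℝ) : Prop where
  nonempty : Nonempty Q
  mix1 : ∀ T x y, mix T (mix T x y) (mix Tᶜ x y) = x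
  mix2 : ∀ T x y, mix Tᶜ (mix T x y) (mix Tᶜ x y) = y
  umix : ∀ T x y j, u j (mix T x y) = if j ∈ T then u j x else u j y
  fval : ∀ x, f x = 1 ∨ f x = -1
  c0 : 0 ≤ c
  ε0 : 0 ≤ ε
  mean : ∑ x, f x = c * Fintype.card Q
  ule : ∀ j x, u j x ≤ 1 - c
  umean : ∀ j, ∑ x, u j x = 0
  uvar : ∑ j, ∑ x, (u j x) ^ 2 ≤ Fintype.card Q
  close : ∑ x, (f x - (c + ∑ j, u j x)) ^ 2 ≤ ε * Fintype.card Q

variable {mix : Finset ι → Q → Q → Q} {u : ι → Q → ℝ} {f : Q → ℝ} {c ε : ℝ}


lemma sum_mix (D : Data mix u f c ε) (T : Finset ι) (F : Q → Q → ℝ) :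
    ∑ x, ∑ y, F (mix T x y) (mix Tᶜ x y) = ∑ x, ∑ y, F x y := by
  let φ : Q × Q → Q × Q := fun p => (mix T p.1 p.2, mix Tᶜ p.1 p.2)
  have hφ : Function.Involutive φ := by
    rintro ⟨x, y⟩
    simp only [φ, D.mix1, D.mix2]
  have h1 := Equiv.sum_comp hφ.toPerm (fun p : Q × Q => F p.1 p.2)
  rw [← Fintype.sum_prod_type', ← Fintype.sum_prod_type']
  exact h1

omit [DecidableEq ι] [Fintype ι] in
lemma card_markov (g : Q → ℝ) (hg : ∀ x, 0 ≤ g x) (s : Finset Q) (t : ℝ)
    (h : ∀ x ∈ s, t ≤ g x) : t * s.card ≤ ∑ x, g x := by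
  calc t * s.card = ∑ x ∈ s, t := by rw [Finset.sum_const, nsmul_eq_mul]; ring
    _ ≤ ∑ x ∈ s, g x := Finset.sum_le_sum h
    _ ≤ ∑ x, g x := Finset.sum_le_sum_of_subset_of_nonneg (Finset.subset_univ _)
        (fun x _ _ => hg x)

/-- step (i) -/
lemma cross (D : Data mix u f c ε) (j : ι) :
    ((Finset.univ.filter (fun x => c + u j x < -(1 / 2) ∧ 3 / 4 ≤ c + ∑ j, u j x)).card : ℝ) *
      (Finset.univ.filter (fun x => -(1 / 8) ≤ u j x)).card
    ≤ (Finset.univ.filter (fun x => 9 / 8 ≤ c + ∑ j, u j x)).card *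
      (Finset.univ.filter (fun x => c + u j x < -(1 / 2))).card := by
  classical
  rw [← Nat.cast_mul, ← Nat.cast_mul, ← Finset.card_product, ← Finset.card_product]
  norm_cast
  -- (x, y) ↦ (mix {j} y x, mix {j} x y)
  apply Finset.card_le_card_of_injOn (fun p : Q × Q => (mix {j}ᶜ p.1 p.2, mix {j} p.1 p.2))
  · rintro ⟨x, y⟩ hxy
    simp only [Finset.coe_product, Finset.coe_filter, Finset.mem_univ, true_and, Set.mem_prod,
      Set.mem_ofPred_eq] at hxy ⊢
    obtain ⟨⟨h1, h2⟩, h3⟩ := hxy
    constructor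
    · -- S value
      have e1 : ∑ i, u i (mix {j}ᶜ x y) = (∑ i, u i x) - u j x + u j y := by
        rw [← Finset.add_sum_erase _ _ (Finset.mem_univ j), ← Finset.add_sum_erase Finset.univ
          (fun i => u i x) (Finset.mem_univ j)]
        have h4 : ∑ i ∈ Finset.univ.erase j, u i (mix {j}ᶜ x y)
            = ∑ i ∈ Finset.univ.erase j, u i x := by
          apply Finset.sum_congr rfl
          intro i hi
          rw [D.umix, if_pos]
          rw [Finset.mem_compl, Finset.mem_singleton]
          exact Finset.ne_of_mem_erase hi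
        rw [h4, D.umix, if_neg (by simp)]
        ring
      rw [e1]
      have := D.c0
      linarith
    · rw [D.umix, if_pos (Finset.mem_singleton_self j)]
      exact h1
  · rintro ⟨x, y⟩ _ ⟨x', y'⟩ _ h
    simp only [Prod.mk.injEq] at h
    have h1 : x = x' := by
      have e1 := D.mix1 {j} x y
      have e2 := D.mix1 {j} x' y'
      rw [h.1, h.2] at e1
      exact e1.symm.trans e2
    have h2 : y = y' := by
      have e1 := D.mix2 {j} x y
      have e2 := D.mix2 {j} x' y'
      rw [h.1, h.2] at e1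
      exact e1.symm.trans e2
    rw [h1, h2]

/-- step (ii) -/
lemma square (D : Data mix u f c ε) :
    ((Finset.univ.filter (fun x => (∀ j, -(1 / 2) ≤ c + u j x) ∧
        (-(5 / 4) ≤ c + ∑ j, u j x ∧ c + ∑ j, u j x ≤ -(3 / 4)))).card : ℝ) *
      (Finset.univ.filter (fun x => (∀ j, -(1 / 2) ≤ c + u j x) ∧
        (3 / 4 ≤ c + ∑ j, u j x ∧ c + ∑ j, u j x ≤ 5 / 4))).card * (1 - Real.sqrt 2 / 2)
    ≤ Fintype.card Q * (Real.pi ^ 2 / 2 * (ε * Fintype.card Q)) := by
  classical
  set S : Q → ℝ := fun x => c + ∑ j, u j x with hS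
  set B := Finset.univ.filter (fun x => (∀ j, -(1 / 2) ≤ c + u j x) ∧
        (-(5 / 4) ≤ S x ∧ S x ≤ -(3 / 4))) with hB
  set G := Finset.univ.filter (fun x => (∀ j, -(1 / 2) ≤ c + u j x) ∧
        (3 / 4 ≤ S x ∧ S x ≤ 5 / 4)) with hG
  have hΨ0 : ∀ s : ℝ, 0 ≤ 1 + Real.cos (Real.pi * s) := by
    intro s; have := Real.neg_one_le_cos (Real.pi * s); linarith
  -- lower bound for each pair
  have hpair : ∀ x ∈ B, ∀ y ∈ G, (2 : ℝ) ^ (Fintype.card ι) * (1 - Real.sqrt 2 / 2)
      ≤ ∑ T : Finset ι, (1 + Real.cos (Real.pi * S (mix T x y))) := by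
    intro x hx y hy
    rw [hB, Finset.mem_filter] at hx
    rw [hG, Finset.mem_filter] at hy
    obtain ⟨-, hx1, hx2, hx3⟩ := hx
    obtain ⟨-, hy1, hy2, hy3⟩ := hy
    set d : ι → ℝ := fun j => u j x - u j y with hd
    have hSmix : ∀ T : Finset ι, S (mix T x y) = S y + ∑ j ∈ T, d j := by
      intro T
      simp only [hS, D.umix, hd]
      have h1 : ∀ j, (if j ∈ T then u j x else u j y)
          = u j y + if j ∈ T then (u j x - u j y) else 0 := by
        intro j; split_ifs <;> ring
      simp only [h1]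
      rw [Finset.sum_add_distrib, Finset.sum_ite_mem, Finset.univ_inter]
      ring
    have hSx : S x = S y + ∑ j, d j := by
      simp only [hS, hd]
      rw [Finset.sum_sub_distrib]; ring
    have h1 : ∑ T : Finset ι, (1 + Real.cos (Real.pi * S (mix T x y)))
        = 2 ^ (Fintype.card ι) + ∑ T ∈ (Finset.univ : Finset ι).powerset,
          Real.cos (Real.pi * S y + ∑ j ∈ T, Real.pi * d j) := by
      rw [Finset.sum_add_distrib]
      congr 1
      · simp
      · rw [Finset.powerset_univ]
        apply Finset.sum_congr rfl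
        intro T _
        rw [hSmix, mul_add, Finset.mul_sum]
    rw [h1, sum_cos_powerset]
    have h2 : Real.pi * S y + (∑ j, Real.pi * d j) / 2 = Real.pi * ((S x + S y) / 2) := by
      rw [hSx, ← Finset.mul_sum]; ring
    rw [h2]
    have h3 := prod_cos_ge d Finset.univ (by
      intro j _
      have a1 := hx1 j
      have a2 := hy1 j
      have a3 := D.ule j x
      have a4 := D.ule j y
      simp only [hd]
      rw [abs_le]
      constructor <;> linarith) ((S x + S y) / 2) (by
      rw [abs_le]; constructor <;> linarith)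
    have h4 : (Finset.univ : Finset ι).card = Fintype.card ι := rfl
    rw [h4]
    have h5 : (0 : ℝ) < 2 ^ (Fintype.card ι) := by positivity
    have h6 : (2 : ℝ) ^ (Fintype.card ι) * -(Real.sqrt 2 / 2) ≤ 2 ^ (Fintype.card ι) *
        (Real.cos (Real.pi * ((S x + S y) / 2)) * ∏ j, Real.cos (Real.pi * d j / 2)) :=
      mul_le_mul_of_nonneg_left h3 h5.le
    calc (2 : ℝ) ^ (Fintype.card ι) * (1 - Real.sqrt 2 / 2)
        = 2 ^ (Fintype.card ι) + 2 ^ (Fintype.card ι) * -(Real.sqrt 2 / 2) := by ring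
      _ ≤ 2 ^ (Fintype.card ι) + 2 ^ (Fintype.card ι) *
        (Real.cos (Real.pi * ((S x + S y) / 2)) * ∏ j, Real.cos (Real.pi * d j / 2)) := by
          linarith
      _ = _ := by ring
  -- sum over pairs
  have hup : ∑ T : Finset ι, ∑ x, ∑ y, (1 + Real.cos (Real.pi * S (mix T x y)))
      = 2 ^ (Fintype.card ι) * (Fintype.card Q * ∑ x, (1 + Real.cos (Real.pi * S x))) := by
    have h1 : ∀ T : Finset ι, ∑ x, ∑ y, (1 + Real.cos (Real.pi * S (mix T x y)))
        = Fintype.card Q * ∑ x, (1 + Real.cos (Real.pi * S x)) := by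
      intro T
      rw [sum_mix D T (fun a _ => 1 + Real.cos (Real.pi * S a))]
      simp only [Finset.sum_const, Finset.card_univ, nsmul_eq_mul]
      rw [← Finset.mul_sum]
    simp only [h1]
    rw [Finset.sum_const, Finset.card_univ, Fintype.card_finset, nsmul_eq_mul]
    push_cast
    ring
  have hlow : (2 : ℝ) ^ (Fintype.card ι) * (B.card * G.card * (1 - Real.sqrt 2 / 2))
      ≤ ∑ T : Finset ι, ∑ x, ∑ y, (1 + Real.cos (Real.pi * S (mix T x y))) := by
    calc (2 : ℝ) ^ (Fintype.card ι) * (B.card * G.card * (1 - Real.sqrt 2 / 2))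
        = ∑ x ∈ B, ∑ y ∈ G, (2 : ℝ) ^ (Fintype.card ι) * (1 - Real.sqrt 2 / 2) := by
          simp only [Finset.sum_const, nsmul_eq_mul]; ring
      _ ≤ ∑ x ∈ B, ∑ y ∈ G, ∑ T : Finset ι, (1 + Real.cos (Real.pi * S (mix T x y))) :=
          Finset.sum_le_sum (fun x hx => Finset.sum_le_sum (fun y hy => hpair x hx y hy))
      _ ≤ ∑ x, ∑ y, ∑ T : Finset ι, (1 + Real.cos (Real.pi * S (mix T x y))) := by
          calc _ ≤ ∑ x ∈ B, ∑ y, ∑ T : Finset ι, (1 + Real.cos (Real.pi * S (mix T x y))) := by
                apply Finset.sum_le_sum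
                intro x _
                apply Finset.sum_le_sum_of_subset_of_nonneg (Finset.subset_univ _)
                intro y _ _
                exact Finset.sum_nonneg (fun T _ => hΨ0 _)
            _ ≤ _ := by
                apply Finset.sum_le_sum_of_subset_of_nonneg (Finset.subset_univ _)
                intro x _ _
                exact Finset.sum_nonneg (fun y _ => Finset.sum_nonneg (fun T _ => hΨ0 _))
      _ = ∑ T : Finset ι, ∑ x, ∑ y, (1 + Real.cos (Real.pi * S (mix T x y))) := by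
          rw [Finset.sum_comm]
          have : ∀ y : Q, ∑ x, ∑ T : Finset ι, (1 + Real.cos (Real.pi * S (mix T x y)))
              = ∑ T : Finset ι, ∑ x, (1 + Real.cos (Real.pi * S (mix T x y))) :=
            fun y => Finset.sum_comm
          simp only [this]
          rw [Finset.sum_comm]
          apply Finset.sum_congr rfl
          intro T _
          exact Finset.sum_comm
  have hΨ : ∑ x, (1 + Real.cos (Real.pi * S x)) ≤ Real.pi ^ 2 / 2 * (ε * Fintype.card Q) := by
    calc ∑ x, (1 + Real.cos (Real.pi * S x)) ≤ ∑ x, Real.pi ^ 2 / 2 * (f x - S x) ^ 2 := by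
          apply Finset.sum_le_sum
          intro x _
          have h1 : Real.cos (Real.pi * S x) = -Real.cos (Real.pi * (f x - S x)) := by
            rcases D.fval x with h | h
            · rw [h, mul_sub, mul_one, Real.cos_pi_sub]; ring
            · rw [h]
              have : Real.pi * (-1 - S x) = -(Real.pi * S x + Real.pi) := by ring
              rw [this, Real.cos_neg, Real.cos_add_pi]; ring
          have h2 := Real.one_sub_sq_div_two_le_cos (x := Real.pi * (f x - S x))
          rw [h1]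
          have h3 : (Real.pi * (f x - S x)) ^ 2 = Real.pi ^ 2 * (f x - S x) ^ 2 := by ring
          rw [h3] at h2
          linarith
      _ = Real.pi ^ 2 / 2 * ∑ x, (f x - S x) ^ 2 := by rw [← Finset.mul_sum]
      _ ≤ Real.pi ^ 2 / 2 * (ε * Fintype.card Q) := by
          gcongr
          exact D.close
  have h2 : (0 : ℝ) < 2 ^ (Fintype.card ι) := by positivity
  have h3 : (2 : ℝ) ^ (Fintype.card ι) * (B.card * G.card * (1 - Real.sqrt 2 / 2))
      ≤ 2 ^ (Fintype.card ι) * (Fintype.card Q * (Real.pi ^ 2 / 2 * (ε * Fintype.card Q))) := by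
    refine hlow.trans ?_
    rw [hup]
    gcongr
  exact le_of_mul_le_mul_left h3 h2

/-- The abstract theorem: `f` agrees with the OR of the events `c + u j < -1/2` up to `O(ε)`. -/
theorem abstract_main (D : Data mix u f c ε) (hε : ε ≤ 1 / 10000) :
    ((Finset.univ.filter (fun x => f x ≠ if ∃ j, c + u j x < -(1 / 2) then -1 else 1)).card : ℝ)
      ≤ 2500 * (ε * Fintype.card Q) := by
  classical
  set q : ℝ := (Fintype.card Q : ℝ) with hq
  have hqpos : 0 < q := by
    have := D.nonempty
    rw [hq]; exact_mod_cast Fintype.card_pos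
  set S : Q → ℝ := fun x => c + ∑ j, u j x with hS
  have hc0 := D.c0
  have hε0 := D.ε0
  have hclose := D.close
  rw [← hq] at hclose
  -- the sets
  set Bad := Finset.univ.filter (fun x => 1 / 16 ≤ (f x - S x) ^ 2) with hBad
  set Hi := Finset.univ.filter (fun x => 9 / 8 ≤ S x) with hHi
  set B := Finset.univ.filter (fun x => (∀ j, -(1 / 2) ≤ c + u j x) ∧
        (-(5 / 4) ≤ S x ∧ S x ≤ -(3 / 4))) with hB
  set G := Finset.univ.filter (fun x => (∀ j, -(1 / 2) ≤ c + u j x) ∧
        (3 / 4 ≤ S x ∧ S x ≤ 5 / 4)) with hG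
  set E1 : ι → Finset Q := fun j => Finset.univ.filter
    (fun x => c + u j x < -(1 / 2) ∧ 3 / 4 ≤ S x) with hE1
  set E2 : ι → Finset Q := fun j => Finset.univ.filter (fun x => -(1 / 8) ≤ u j x) with hE2
  set E : ι → Finset Q := fun j => Finset.univ.filter (fun x => c + u j x < -(1 / 2)) with hE
  have hBadc : (Bad.card : ℝ) ≤ 16 * (ε * q) := by
    have h := card_markov (fun x => (f x - S x) ^ 2) (fun x => sq_nonneg _) Bad (1 / 16)
      (fun x hx => (Finset.mem_filter.1 hx).2)
    linarith
  have hHic : (Hi.card : ℝ) ≤ 64 * (ε * q) := by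
    have h := card_markov (fun x => (f x - S x) ^ 2) (fun x => sq_nonneg _) Hi (1 / 64) (by
      intro x hx
      have h1 := (Finset.mem_filter.1 hx).2
      rcases D.fval x with h2 | h2 <;> rw [h2] <;> nlinarith)
    linarith
  have hEc : ∑ j, ((E j).card : ℝ) ≤ 4 * q := by
    have h1 : ∀ j, ((E j).card : ℝ) ≤ 4 * ∑ x, (u j x) ^ 2 := by
      intro j
      have h := card_markov (fun x => (u j x) ^ 2) (fun x => sq_nonneg _) (E j) (1 / 4) (by
        intro x hx
        have h1 := (Finset.mem_filter.1 hx).2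
        nlinarith)
      linarith
    calc ∑ j, ((E j).card : ℝ) ≤ ∑ j, 4 * ∑ x, (u j x) ^ 2 := Finset.sum_le_sum (fun j _ => h1 j)
      _ = 4 * ∑ j, ∑ x, (u j x) ^ 2 := by rw [← Finset.mul_sum]
      _ ≤ 4 * q := by
          have := D.uvar
          linarith
  have hE2c : ∀ j, q / 9 ≤ ((E2 j).card : ℝ) := by
    intro j
    have h0 := D.umean j
    have h1 : ∑ x, u j x ≤ ∑ x, (if x ∈ E2 j then (1 : ℝ) + 1 / 8 else 0) - ∑ x : Q, (1 / 8 : ℝ) := by
      rw [← Finset.sum_sub_distrib]
      apply Finset.sum_le_sum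
      intro x _
      split_ifs with h
      · have := D.ule j x
        linarith
      · simp only [hE2, Finset.mem_filter, Finset.mem_univ, true_and, not_le] at h
        linarith
    rw [Finset.sum_ite_mem, Finset.univ_inter, Finset.sum_const, Finset.sum_const,
      Finset.card_univ, nsmul_eq_mul, nsmul_eq_mul, ← hq, h0] at h1
    linarith
  have hE1c : ∀ j, ((E1 j).card : ℝ) ≤ 576 * ε * (E j).card := by
    intro j
    have h1 := cross D j
    have h2 : ((E1 j).card : ℝ) * (E2 j).card ≤ Hi.card * (E j).card := h1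
    have h3 : ((E1 j).card : ℝ) * (q / 9) ≤ (64 * (ε * q)) * (E j).card := by
      calc ((E1 j).card : ℝ) * (q / 9) ≤ (E1 j).card * (E2 j).card := by
            gcongr
            exact hE2c j
        _ ≤ Hi.card * (E j).card := h2
        _ ≤ (64 * (ε * q)) * (E j).card := by gcongr
    have h4 : ((E1 j).card : ℝ) * (q / 9) ≤ (576 * ε * (E j).card) * (q / 9) := by
      calc _ ≤ _ := h3
        _ = _ := by ring
    exact le_of_mul_le_mul_right h4 (by positivity)
  have hE1s : ∑ j, ((E1 j).card : ℝ) ≤ 2304 * (ε * q) := by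
    calc ∑ j, ((E1 j).card : ℝ) ≤ ∑ j, 576 * ε * ((E j).card : ℝ) :=
          Finset.sum_le_sum (fun j _ => hE1c j)
      _ = 576 * ε * ∑ j, ((E j).card : ℝ) := by rw [← Finset.mul_sum]
      _ ≤ 576 * ε * (4 * q) := by gcongr
      _ = _ := by ring
  -- (i)
  set O1 := Finset.univ.filter (fun x => f x = 1 ∧ ∃ j, c + u j x < -(1 / 2)) with hO1
  have hnear : ∀ x, x ∉ Bad → |f x - S x| < 1 / 4 := by
    intro x hx
    rw [hBad, Finset.mem_filter] at hx
    push Not at hx
    have h1 := hx (Finset.mem_univ _)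
    rw [abs_lt]
    constructor <;> nlinarith
  have hO1c : (O1.card : ℝ) ≤ 2320 * (ε * q) := by
    have hsub : O1 ⊆ Bad ∪ Finset.univ.biUnion E1 := by
      intro x hx
      rw [hO1, Finset.mem_filter] at hx
      obtain ⟨-, hx1, j, hj⟩ := hx
      rw [Finset.mem_union]
      by_cases hxB : x ∈ Bad
      · exact Or.inl hxB
      · right
        rw [Finset.mem_biUnion]
        refine ⟨j, Finset.mem_univ _, ?_⟩
        rw [hE1, Finset.mem_filter]
        have := abs_lt.1 (hnear x hxB)
        rw [hx1] at this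
        exact ⟨Finset.mem_univ _, hj, by linarith [this.2]⟩
    have h1 : (O1.card : ℝ) ≤ Bad.card + ∑ j, ((E1 j).card : ℝ) := by
      have h2 : O1.card ≤ Bad.card + ∑ j, (E1 j).card :=
        (Finset.card_le_card hsub).trans ((Finset.card_union_le _ _).trans
          (by gcongr; exact Finset.card_biUnion_le))
      exact_mod_cast h2
    linarith
  -- lower bound for G
  have hfpos : q / 2 ≤ ((Finset.univ.filter (fun x => f x = 1)).card : ℝ) := by
    have h1 : ∑ x, f x = ∑ x, (if x ∈ Finset.univ.filter (fun x => f x = 1) then (2 : ℝ) else 0)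
        - ∑ x : Q, (1 : ℝ) := by
      rw [← Finset.sum_sub_distrib]
      apply Finset.sum_congr rfl
      intro x _
      rcases D.fval x with h2 | h2
      · rw [if_pos (by rw [Finset.mem_filter]; exact ⟨Finset.mem_univ _, h2⟩), h2]; norm_num
      · rw [if_neg (by rw [Finset.mem_filter]; push Not; intro _; rw [h2]; norm_num), h2]; norm_num
    rw [Finset.sum_ite_mem, Finset.univ_inter, Finset.sum_const, Finset.sum_const,
      Finset.card_univ, nsmul_eq_mul, nsmul_eq_mul, ← hq, D.mean, ← hq] at h1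
    have : 0 ≤ c * q := by positivity
    linarith
  have hGc : q / 4 ≤ (G.card : ℝ) := by
    have hsub : Finset.univ.filter (fun x => f x = 1) ⊆ O1 ∪ (Bad ∪ G) := by
      intro x hx
      rw [Finset.mem_filter] at hx
      rw [Finset.mem_union, Finset.mem_union]
      by_cases hxO : ∃ j, c + u j x < -(1 / 2)
      · left; rw [hO1, Finset.mem_filter]; exact ⟨Finset.mem_univ _, hx.2, hxO⟩
      · right
        by_cases hxB : x ∈ Bad
        · exact Or.inl hxB
        · right
          push Not at hxO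
          have := abs_lt.1 (hnear x hxB)
          rw [hx.2] at this
          rw [hG, Finset.mem_filter]
          exact ⟨Finset.mem_univ _, hxO, by linarith [this.2], by linarith [this.1]⟩
    have h2 : (Finset.univ.filter (fun x => f x = 1)).card ≤ O1.card + (Bad.card + G.card) :=
      (Finset.card_le_card hsub).trans ((Finset.card_union_le _ _).trans
        (by gcongr; exact Finset.card_union_le _ _))
    have h3 : ((Finset.univ.filter (fun x => f x = 1)).card : ℝ)
        ≤ O1.card + (Bad.card + G.card) := by exact_mod_cast h2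
    have h4 : ε * q ≤ 1 / 10000 * q := by gcongr
    linarith
  -- (ii)
  have hBc : (B.card : ℝ) ≤ 100 * (ε * q) := by
    have h1 := square D
    have h2 : (B.card : ℝ) * G.card * (1 - Real.sqrt 2 / 2)
        ≤ q * (Real.pi ^ 2 / 2 * (ε * q)) := h1
    have hsq : Real.sqrt 2 ≤ 1.42 := by
      rw [show (1.42 : ℝ) = Real.sqrt (1.42 ^ 2) by rw [Real.sqrt_sq]; norm_num]
      apply Real.sqrt_le_sqrt; norm_num
    have hpi2 : Real.pi ^ 2 ≤ 10 := by
      have h3 := Real.pi_lt_d2
      have h4 := Real.pi_pos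
      nlinarith
    have h5 : (B.card : ℝ) * (q / 4) * 0.29 ≤ q * (5 * (ε * q)) := by
      calc (B.card : ℝ) * (q / 4) * 0.29 ≤ (B.card : ℝ) * G.card * (1 - Real.sqrt 2 / 2) := by
            gcongr
            linarith
        _ ≤ q * (Real.pi ^ 2 / 2 * (ε * q)) := h2
        _ ≤ q * (5 * (ε * q)) := by
            gcongr
            linarith
    have h6 : (B.card : ℝ) * q ≤ (100 * (ε * q)) * q := by
      have : 0 ≤ ε * q * q := by positivity
      nlinarith
    exact le_of_mul_le_mul_right h6 hqpos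
  -- conclusion
  have hsub : Finset.univ.filter (fun x => f x ≠ if ∃ j, c + u j x < -(1 / 2) then -1 else 1)
      ⊆ O1 ∪ (Bad ∪ B) := by
    intro x hx
    rw [Finset.mem_filter] at hx
    rw [Finset.mem_union, Finset.mem_union]
    obtain ⟨-, hx⟩ := hx
    by_cases hxO : ∃ j, c + u j x < -(1 / 2)
    · rw [if_pos hxO] at hx
      left; rw [hO1, Finset.mem_filter]
      exact ⟨Finset.mem_univ _, (D.fval x).resolve_right hx, hxO⟩
    · rw [if_neg hxO] at hx
      right
      have hfx := (D.fval x).resolve_left hx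
      by_cases hxB : x ∈ Bad
      · exact Or.inl hxB
      · right
        push Not at hxO
        have := abs_lt.1 (hnear x hxB)
        rw [hfx] at this
        rw [hB, Finset.mem_filter]
        exact ⟨Finset.mem_univ _, hxO, by linarith [this.2], by linarith [this.1]⟩
  have h2 : (Finset.univ.filter
      (fun x => f x ≠ if ∃ j, c + u j x < -(1 / 2) then -1 else 1)).card
      ≤ O1.card + (Bad.card + B.card) :=
    (Finset.card_le_card hsub).trans ((Finset.card_union_le _ _).trans
      (by gcongr; exact Finset.card_union_le _ _))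
  have h3 : ((Finset.univ.filter
      (fun x => f x ≠ if ∃ j, c + u j x < -(1 / 2) then -1 else 1)).card : ℝ)
      ≤ O1.card + (Bad.card + B.card) := by exact_mod_cast h2
  have : 0 ≤ ε * q := by positivity
  linarith

end abs

end Pool.Agent.Lib.MP_c2536d_co
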