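import Pool.Agent.Lib.MP_c2536d_co.Fourier

namespace Pool.Agent.Lib.MP_c2536d_co

open Finset

section blocks

variable {V J : Type*} [Fintype V] [DecidableEq V] [Fintype J] [DecidableEq J]

/-- conditional expectation on the block `s` -/
noncomputable def blockPart (f : (V → ℤˣ) → ℝ) (s : Finset V) (x : V → ℤˣ) : ℝ :=
  ∑ S ∈ s.powerset, coeff f S * chi S x

/-- centred block part -/
noncomputable def ublock (f : (V → ℤˣ) → ℝ) (s : Finset V) (x : V → ℤˣ) : ℝ :=
  ∑ S ∈ s.powerset.erase ∅, coeff f S * chi S x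

omit [Fintype V] [DecidableEq V] in
lemma chi_empty (x : V → ℤˣ) : chi ∅ x = 1 := by simp [chi]

lemma blockPart_eq (f : (V → ℤˣ) → ℝ) (s : Finset V) (x : V → ℤˣ) :
    blockPart f s x = coeff f ∅ + ublock f s x := by
  rw [blockPart, ublock, ← Finset.add_sum_erase _ _ (Finset.empty_mem_powerset s), chi_empty,
    mul_one]

omit [Fintype V] [DecidableEq V] in
lemma chi_congr (S : Finset V) (x y : V → ℤˣ) (h : ∀ i ∈ S, x i = y i) : chi S x = chi S y := by
  unfold chi
  apply Finset.prod_congr rfl
  intro i hi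
  rw [h i hi]

lemma ublock_congr (f : (V → ℤˣ) → ℝ) (s : Finset V) (x y : V → ℤˣ) (h : ∀ i ∈ s, x i = y i) :
    ublock f s x = ublock f s y := by
  unfold ublock
  apply Finset.sum_congr rfl
  intro S hS
  rw [chi_congr S x y]
  intro i hi
  exact h i (Finset.mem_powerset.1 (Finset.mem_of_mem_erase hS) hi)

lemma blockPart_congr (f : (V → ℤˣ) → ℝ) (s : Finset V) (x y : V → ℤˣ)
    (h : ∀ i ∈ s, x i = y i) : blockPart f s x = blockPart f s y := by
  rw [blockPart_eq, blockPart_eq, ublock_congr f s x y h]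

/-- The sets meeting at most one block. -/
def goodSets (I : J → Finset V) : Finset (Finset V) :=
  Finset.univ.filter (fun S => ∃ j, S ⊆ I j)

lemma good_sum (I : J → Finset V) (hdisj : ∀ i j, i ≠ j → Disjoint (I i) (I j))
    (hJ : Nonempty J) (a : Finset V → ℝ) :
    ∑ S ∈ goodSets I, a S = a ∅ + ∑ j, ∑ S ∈ (I j).powerset.erase ∅, a S := by
  classical
  have h1 : goodSets I = insert ∅ (Finset.univ.biUnion (fun j => (I j).powerset.erase ∅)) := by
    ext S
    simp only [goodSets, Finset.mem_filter, Finset.mem_univ, true_and, Finset.mem_insert,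
      Finset.mem_biUnion, Finset.mem_erase, Finset.mem_powerset]
    constructor
    · rintro ⟨j, hj⟩
      by_cases hS : S = ∅
      · exact Or.inl hS
      · exact Or.inr ⟨j, hS, hj⟩
    · rintro (h | ⟨j, _, hj⟩)
      · obtain ⟨j⟩ := hJ
        exact ⟨j, by rw [h]; exact Finset.empty_subset _⟩
      · exact ⟨j, hj⟩
  rw [h1, Finset.sum_insert (by simp), Finset.sum_biUnion]
  intro i _ j _ hij
  simp only [Function.onFun]
  rw [Finset.disjoint_left]
  intro S hS hS'
  have h2 := Finset.ne_of_mem_erase hS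
  obtain ⟨v, hv⟩ := Finset.nonempty_iff_ne_empty.2 h2
  have h3 := Finset.mem_powerset.1 (Finset.mem_of_mem_erase hS) hv
  have h4 := Finset.mem_powerset.1 (Finset.mem_of_mem_erase hS') hv
  exact Finset.disjoint_left.1 (hdisj i j hij) h3 h4

lemma sum_ublock (f : (V → ℤˣ) → ℝ) (s : Finset V) : ∑ x, ublock f s x = 0 := by
  unfold ublock
  rw [Finset.sum_comm]
  apply Finset.sum_eq_zero
  intro S hS
  rw [← Finset.mul_sum, sum_chi, if_neg (Finset.ne_of_mem_erase hS), mul_zero]

/-- the mixing map -/
def mixMap (blk : V → J) (T : Finset J) (x y : V → ℤˣ) : V → ℤˣ :=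
  fun i => if blk i ∈ T then x i else y i

theorem mkData (f : (V → ℤˣ) → ℝ) (hf : ∀ x, f x = 1 ∨ f x = -1) (I : J → Finset V)
    (hdisj : ∀ i j, i ≠ j → Disjoint (I i) (I j)) (hJ : Nonempty J)
    (blk : V → J) (hblk : ∀ i, i ∈ I (blk i)) (ε : ℝ) (hε : 0 ≤ ε)
    (hconc : 1 - ε ≤ ∑ S ∈ goodSets I, coeff f S ^ 2) (hc : 0 ≤ coeff f ∅) :
    Data (mixMap blk) (fun j x => ublock f (I j) x) f (coeff f ∅) ε where
  nonempty := ⟨fun _ => 1⟩
  mix1 := by
    intro T x y
    funext i
    simp only [mixMap, Finset.mem_compl]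
    split_ifs <;> rfl
  mix2 := by
    intro T x y
    funext i
    simp only [mixMap, Finset.mem_compl]
    split_ifs <;> first | rfl | contradiction
  umix := by
    intro T x y j
    have hb : ∀ i ∈ I j, blk i = j := by
      intro i hi
      by_contra hne
      exact Finset.disjoint_left.1 (hdisj _ _ hne) (hblk i) hi
    split_ifs with h
    · apply ublock_congr
      intro i hi
      simp only [mixMap, hb i hi, h, if_true]
    · apply ublock_congr
      intro i hi
      simp only [mixMap, hb i hi, h, if_false]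
  fval := hf
  c0 := hc
  ε0 := hε
  mean := by
    rw [card_cube, coeff]
    simp only [chi_empty, mul_one]
    field_simp
  ule := by
    intro j x
    have h1 := blockPart_eq f (I j) x
    have h2 : blockPart f (I j) x ≤ 1 := by
      apply cond_le
      intro x
      rcases hf x with h | h <;> rw [h]; norm_num
    linarith
  umean := by
    intro j
    exact sum_ublock f (I j)
  uvar := by
    rw [card_cube]
    have h1 : ∀ j, ∑ x, (ublock f (I j) x) ^ 2
        = 2 ^ Fintype.card V * ∑ S ∈ (I j).powerset.erase ∅, coeff f S ^ 2 := by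
      intro j
      exact parseval _ _
    simp only [h1]
    rw [← Finset.mul_sum]
    have h2 := good_sum I hdisj hJ (fun S => coeff f S ^ 2)
    have h3 : ∑ S ∈ goodSets I, coeff f S ^ 2 ≤ 1 := by
      rw [← sum_sq_coeff f hf]
      exact Finset.sum_le_sum_of_subset_of_nonneg (Finset.subset_univ _)
        (fun _ _ _ => sq_nonneg _)
    have h4 : ∑ j, ∑ S ∈ (I j).powerset.erase ∅, coeff f S ^ 2 ≤ 1 := by
      have := sq_nonneg (coeff f ∅)
      linarith
    have h5 : (0 : ℝ) < 2 ^ Fintype.card V := by positivity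
    nlinarith
  close := by
    rw [card_cube]
    have h1 : ∀ x, f x - (coeff f ∅ + ∑ j, ublock f (I j) x)
        = ∑ S ∈ (goodSets I)ᶜ, coeff f S * chi S x := by
      intro x
      have h2 := good_sum I hdisj hJ (fun S => coeff f S * chi S x)
      simp only [chi_empty, mul_one] at h2
      have h3 : coeff f ∅ + ∑ j, ublock f (I j) x = ∑ S ∈ goodSets I, coeff f S * chi S x := by
        rw [h2]; rfl
      rw [h3]
      have h4 := inversion f x
      have h5 := Finset.sum_add_sum_compl (goodSets I) (fun S => coeff f S * chi S x)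
      linarith
    simp only [h1]
    rw [parseval]
    have h2 := sum_sq_coeff f hf
    have h3 := Finset.sum_add_sum_compl (goodSets I) (fun S => coeff f S ^ 2)
    have h4 : ∑ S ∈ (goodSets I)ᶜ, coeff f S ^ 2 ≤ ε := by linarith
    have h5 : (0 : ℝ) < 2 ^ Fintype.card V := by positivity
    nlinarith

end blocks

end Pool.Agent.Lib.MP_c2536d_co
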