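import Pool.Agent.Lib.MP_c2536d_co.Abstract

namespace Pool.Agent.Lib.MP_c2536d_co

open Finset

section fourier

variable {V : Type*} [Fintype V] [DecidableEq V]

/-- Walsh character. -/
noncomputable def chi (S : Finset V) (x : V → ℤˣ) : ℝ := ∏ i ∈ S, (((x i : ℤˣ) : ℤ) : ℝ)

/-- Fourier coefficient. -/
noncomputable def coeff (f : (V → ℤˣ) → ℝ) (S : Finset V) : ℝ :=
  (∑ x, f x * chi S x) / 2 ^ Fintype.card V

lemma card_cube : (Fintype.card (V → ℤˣ) : ℝ) = 2 ^ Fintype.card V := by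
  rw [Fintype.card_fun, Fintype.card_units_int]; push_cast; rfl

lemma unit_mul_self (a : ℤˣ) : (((a : ℤˣ) : ℤ) : ℝ) * ((a : ℤˣ) : ℤ) = 1 := by
  rcases Int.units_eq_one_or a with h | h <;> rw [h] <;> norm_num

lemma sum_units (g : ℤˣ → ℝ) : ∑ a : ℤˣ, g a = g 1 + g (-1) := by
  have : (Finset.univ : Finset ℤˣ) = {1, -1} := by decide
  rw [this, Finset.sum_pair (by decide)]

lemma sum_chi (S : Finset V) : ∑ x : V → ℤˣ, chi S x = if S = ∅ then 2 ^ Fintype.card V else 0 := by
  have h1 : ∀ x : V → ℤˣ, chi S x = ∏ i, (if i ∈ S then (((x i : ℤˣ) : ℤ) : ℝ) else 1) := by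
    intro x
    rw [Finset.prod_ite_mem, Finset.univ_inter]; rfl
  simp only [h1]
  have h2 := Finset.prod_univ_sum (fun _ : V => (Finset.univ : Finset ℤˣ))
    (fun i a => if i ∈ S then (((a : ℤˣ) : ℤ) : ℝ) else 1)
  rw [Fintype.piFinset_univ] at h2
  rw [← h2]
  simp only [sum_units]
  split_ifs with h
  · rw [h]
    simp only [Finset.notMem_empty, if_false]
    rw [Finset.prod_const, Finset.card_univ]; norm_num
  · obtain ⟨i, hi⟩ := Finset.nonempty_iff_ne_empty.2 h
    apply Finset.prod_eq_zero (Finset.mem_univ i)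
    rw [if_pos hi, if_pos hi]; norm_num

lemma chi_mul (S T : Finset V) (x : V → ℤˣ) : chi S x * chi T x = chi (symmDiff S T) x := by
  have h1 : ∀ (S : Finset V) (x : V → ℤˣ),
      chi S x = ∏ i, (if i ∈ S then (((x i : ℤˣ) : ℤ) : ℝ) else 1) := by
    intro S x
    rw [Finset.prod_ite_mem, Finset.univ_inter]; rfl
  rw [h1, h1, h1, ← Finset.prod_mul_distrib]
  apply Finset.prod_congr rfl
  intro i _
  by_cases hS : i ∈ S <;> by_cases hT : i ∈ T <;>
    simp [Finset.mem_symmDiff, hS, hT, unit_mul_self]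

lemma sum_chi_mul (S T : Finset V) :
    ∑ x : V → ℤˣ, chi S x * chi T x = if S = T then 2 ^ Fintype.card V else 0 := by
  simp only [chi_mul]
  rw [sum_chi]
  congr 1
  rw [eq_iff_iff]
  exact symmDiff_eq_bot

/-- Parseval for Walsh polynomials. -/
lemma parseval (A : Finset (Finset V)) (a : Finset V → ℝ) :
    ∑ x : V → ℤˣ, (∑ S ∈ A, a S * chi S x) ^ 2 = 2 ^ Fintype.card V * ∑ S ∈ A, a S ^ 2 := by
  have h1 : ∀ x : V → ℤˣ, (∑ S ∈ A, a S * chi S x) ^ 2
      = ∑ S ∈ A, ∑ T ∈ A, a S * a T * (chi S x * chi T x) := by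
    intro x
    rw [sq, Finset.sum_mul_sum]
    apply Finset.sum_congr rfl; intro S _
    apply Finset.sum_congr rfl; intro T _
    ring
  simp only [h1]
  rw [Finset.sum_comm, Finset.mul_sum]
  apply Finset.sum_congr rfl
  intro S hS
  rw [Finset.sum_comm]
  simp only [← Finset.mul_sum, sum_chi_mul]
  rw [Finset.sum_eq_single S]
  · rw [if_pos rfl]; ring
  · intro T _ hT
    rw [if_neg (fun h => hT h.symm), mul_zero]
  · intro h; exact absurd hS h

omit [Fintype V] [DecidableEq V] in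
/-- kernel -/
lemma kernel (s : Finset V) (x y : V → ℤˣ) :
    ∑ S ∈ s.powerset, chi S y * chi S x
      = ∏ i ∈ s, (1 + (((y i : ℤˣ) : ℤ) : ℝ) * (((x i : ℤˣ) : ℤ) : ℝ)) := by
  rw [Finset.prod_one_add]
  apply Finset.sum_congr rfl
  intro S _
  rw [Finset.prod_mul_distrib]; rfl

lemma kernel_nonneg (s : Finset V) (x y : V → ℤˣ) :
    0 ≤ ∑ S ∈ s.powerset, chi S y * chi S x := by
  rw [kernel]
  apply Finset.prod_nonneg
  intro i _
  rcases Int.units_eq_one_or (x i) with h | h <;> rcases Int.units_eq_one_or (y i) with h' | h' <;>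
    rw [h, h'] <;> norm_num

lemma kernel_univ (x y : V → ℤˣ) :
    ∑ S : Finset V, chi S y * chi S x = if x = y then 2 ^ Fintype.card V else 0 := by
  rw [← Finset.powerset_univ, kernel]
  split_ifs with h
  · rw [h]
    simp only [unit_mul_self]
    rw [Finset.prod_const, Finset.card_univ]; norm_num
  · have : ∃ i, x i ≠ y i := by
      by_contra hcon; push Not at hcon; exact h (funext hcon)
    obtain ⟨i, hi⟩ := this
    apply Finset.prod_eq_zero (Finset.mem_univ i)
    rcases Int.units_eq_one_or (x i) with h | h <;>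
      rcases Int.units_eq_one_or (y i) with h' | h' <;> rw [h, h'] at hi ⊢ <;> simp at hi ⊢

lemma sum_kernel (s : Finset V) (x : V → ℤˣ) :
    ∑ y : V → ℤˣ, ∑ S ∈ s.powerset, chi S y * chi S x = 2 ^ Fintype.card V := by
  rw [Finset.sum_comm]
  simp only [← Finset.sum_mul, sum_chi]
  rw [Finset.sum_eq_single ∅]
  · simp [chi]
  · intro S _ hS
    rw [if_neg hS, zero_mul]
  · intro h
    exact absurd (Finset.empty_mem_powerset s) h

lemma conv (f : (V → ℤˣ) → ℝ) (s : Finset V) (x : V → ℤˣ) :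
    ∑ S ∈ s.powerset, coeff f S * chi S x
      = (∑ y, f y * ∑ S ∈ s.powerset, chi S y * chi S x) / 2 ^ Fintype.card V := by
  simp only [coeff, Finset.mul_sum]
  rw [Finset.sum_comm, Finset.sum_div]
  apply Finset.sum_congr rfl
  intro S _
  rw [div_mul_eq_mul_div, Finset.sum_mul]
  congr 1
  apply Finset.sum_congr rfl
  intro y _
  ring

lemma inversion (f : (V → ℤˣ) → ℝ) (x : V → ℤˣ) :
    f x = ∑ S : Finset V, coeff f S * chi S x := by
  rw [← Finset.powerset_univ, conv]
  simp only [Finset.powerset_univ, kernel_univ]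
  rw [Finset.sum_eq_single x]
  · rw [if_pos rfl]
    field_simp
  · intro y _ hy
    rw [if_neg (fun h => hy h.symm), mul_zero]
  · intro h; exact absurd (Finset.mem_univ x) h

lemma cond_le (f : (V → ℤˣ) → ℝ) (hf : ∀ x, f x ≤ 1) (s : Finset V) (x : V → ℤˣ) :
    ∑ S ∈ s.powerset, coeff f S * chi S x ≤ 1 := by
  rw [conv, div_le_one (by positivity)]
  calc ∑ y, f y * ∑ S ∈ s.powerset, chi S y * chi S x
      ≤ ∑ y, 1 * ∑ S ∈ s.powerset, chi S y * chi S x := by
        apply Finset.sum_le_sum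
        intro y _
        exact mul_le_mul_of_nonneg_right (hf y) (kernel_nonneg s x y)
    _ = 2 ^ Fintype.card V := by
        simp only [one_mul]
        exact sum_kernel s x

lemma coeff_neg (f : (V → ℤˣ) → ℝ) (S : Finset V) :
    coeff (fun x => - f x) S = - coeff f S := by
  simp only [coeff, neg_mul, Finset.sum_neg_distrib, neg_div]

lemma sum_sq_coeff (f : (V → ℤˣ) → ℝ) (hf : ∀ x, f x = 1 ∨ f x = -1) :
    ∑ S : Finset V, coeff f S ^ 2 = 1 := by
  have h1 := parseval (Finset.univ : Finset (Finset V)) (coeff f)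
  simp only [← inversion] at h1
  have h2 : ∀ x, f x ^ 2 = 1 := by
    intro x; rcases hf x with h | h <;> rw [h] <;> norm_num
  simp only [h2] at h1
  rw [Finset.sum_const, Finset.card_univ, nsmul_eq_mul, mul_one, card_cube] at h1
  have h3 : (0 : ℝ) < 2 ^ Fintype.card V := by positivity
  field_simp at h1
  linarith

end fourier

end Pool.Agent.Lib.MP_c2536d_co
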